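import Pool.Agent.D0H83.RG.Walk

/-!
# Words on the first `m` of `N` strands
-/

set_option autoImplicit false

namespace Pool.Agent.D0H83.RG

open Finset Pool.Agent.W639.RB Pool.Agent.D0H83.FB Pool.Agent.D0H83.GD Pool.Agent.TH561

variable {m N : ℕ}

/-- a letter of the braid group on `m` strands as a letter of the braid group on `N ≥ m` strands (on the
first `m` strands) -/
def emb (h : m ≤ N) (x : Letter m) : Letter N := (x.1, ⟨x.2, by omega⟩)

theorem toN_emb (h : m ≤ N) (w : List (Letter m)) : toN (w.map (emb h)) = toN w := by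
  unfold toN
  rw [List.map_map]
  rfl

theorem exs_emb (h : m ≤ N) (w : List (Letter m)) : exs (w.map (emb h)) = exs w := by
  rw [exs_eq, exs_eq, toN_emb]

/-- permutations of the first `m` strands -/
noncomputable def io (h : m ≤ N) : Equiv.Perm (Fin m) →* Equiv.Perm (Fin N) :=
  Equiv.Perm.viaEmbeddingHom (Fin.castLEEmb h)

theorem io_inj (h : m ≤ N) : Function.Injective (io h) :=
  Equiv.Perm.viaEmbeddingHom_injective _

theorem io_swp (h : m ≤ N) {i : ℕ} (hi : i + 1 < m) : io h (swp m i) = swp N i := by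
  have hi' : i + 1 < N := by omega
  ext j
  by_cases hj : (j : ℕ) < m
  · have e1 : j = Fin.castLEEmb h ⟨j, hj⟩ := rfl
    have e2 : io h (swp m i) j = Fin.castLEEmb h (swp m i ⟨j, hj⟩) := by
      conv_lhs => rw [e1]
      exact Equiv.Perm.viaEmbedding_apply _ _ _
    rw [e2, swp_eq hi, swp_eq hi']
    by_cases h1 : (j : ℕ) = i
    · have e3 : (⟨j, hj⟩ : Fin m) = ⟨i, Nat.lt_of_succ_lt hi⟩ := Fin.ext h1
      have e4 : j = ⟨i, Nat.lt_of_succ_lt hi'⟩ := Fin.ext h1
      rw [e3, Equiv.swap_apply_left, e4, Equiv.swap_apply_left]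
      rfl
    · by_cases h2 : (j : ℕ) = i + 1
      · have e3 : (⟨j, hj⟩ : Fin m) = ⟨i + 1, hi⟩ := Fin.ext h2
        have e4 : j = ⟨i + 1, hi'⟩ := Fin.ext h2
        rw [e3, Equiv.swap_apply_right, e4, Equiv.swap_apply_right]
        rfl
      · rw [Equiv.swap_apply_of_ne_of_ne (fun h3 => h1 (congrArg Fin.val h3))
          (fun h3 => h2 (congrArg Fin.val h3)), Equiv.swap_apply_of_ne_of_ne
          (fun h3 => h1 (congrArg Fin.val h3)) (fun h3 => h2 (congrArg Fin.val h3))]
        rfl
  · have e2 : io h (swp m i) j = j := by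
      apply Equiv.Perm.viaEmbedding_apply_of_notMem
      rintro ⟨k, hk⟩
      apply hj
      rw [← hk]
      exact k.2
    rw [e2, swp_eq hi', Equiv.swap_apply_of_ne_of_ne]
    · intro h3
      have := congrArg Fin.val h3
      simp only at this
      omega
    · intro h3
      have := congrArg Fin.val h3
      simp only at this
      omega

theorem permL_io (h : m ≤ N) (v : List (Bool × ℕ)) (hv : ∀ x ∈ v, x.2 + 1 < m) :
    permL N v = io h (permL m v) := by
  induction v with
  | nil => simp [permL]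
  | cons x v ih =>
    rw [permL_cons, permL_cons, map_mul, io_swp h (hv x List.mem_cons_self),
      ih fun y hy => hv y (List.mem_cons_of_mem _ hy)]

theorem cr_io (h : m ≤ N) (v : List (Bool × ℕ)) : (∀ x ∈ v, x.2 + 1 < m) →
    ∀ ρ, cr N v (io h ρ) = cr m v ρ := by
  induction v with
  | nil => intro _ ρ; rfl
  | cons x v ih =>
    intro hv ρ
    have h1 := ih fun y hy => hv y (List.mem_cons_of_mem _ hy)
    rw [cr, cr, permL_io h v (fun y hy => hv y (List.mem_cons_of_mem _ hy)),
      ← io_swp h (hv x List.mem_cons_self), ← map_inv, ← map_mul, h1]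
    congr 1
    by_cases h2 : permL m v = ρ
    · rw [if_pos h2, if_pos (by rw [h2])]
    · rw [if_neg h2, if_neg (fun h3 => h2 (io_inj h h3))]

theorem cr_out (h : m ≤ N) (v : List (Bool × ℕ)) : (∀ x ∈ v, x.2 + 1 < m) →
    ∀ ρ', (∀ ρ, io h ρ ≠ ρ') → cr N v ρ' = 0 := by
  induction v with
  | nil => intro _ ρ' _; rfl
  | cons x v ih =>
    intro hv ρ' hρ
    have h1 := ih fun y hy => hv y (List.mem_cons_of_mem _ hy)
    rw [cr, permL_io h v (fun y hy => hv y (List.mem_cons_of_mem _ hy)), if_neg (hρ _), zero_add]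
    apply h1
    intro ρ h2
    apply hρ (swp m x.2 * ρ)
    rw [map_mul, h2, io_swp h (hv x List.mem_cons_self)]
    group

theorem netc_emb (h : m ≤ N) (w : List (Letter m)) : netc (w.map (emb h)) = netc w := by
  rw [netc_eq, netc_eq, toN_emb]
  symm
  apply Finset.sum_of_injOn (io h) (io_inj h).injOn (fun _ _ => Finset.mem_univ _)
  · intro ρ' _ h1
    rw [cr_out h (toN w) (toN_mem w) ρ' (fun ρ h2 => h1 ⟨ρ, Finset.mem_coe.2 (Finset.mem_univ _), h2⟩),
      abs_zero]
  · intro ρ _
    rw [cr_io h (toN w) (toN_mem w)]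

end Pool.Agent.D0H83.RG
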