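import Pool.Agent.D0H83.RG.Emb
import Pool.Agent.Y463.MP.Defs

/-!
# Random braids with drift are far from every small polynomial
-/

set_option autoImplicit false

namespace Pool.Agent.D0H83.RG

open Finset Pool.Agent.W639.RB Pool.Agent.D0H83.FB Pool.Agent.D0H83.GD Pool.Agent.TH561
open Pool.Agent.Y463.SK (dia)

/-! ### blocks -/

section chop

variable {α : Type*}

/-- cut a word into `J` blocks of length `L` and the rest -/
def chop (L : ℕ) : ℕ → List α → List (List α)
  | 0, w => [w]
  | J+1, w => w.take L :: chop L J (w.drop L)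

theorem chop_flatten (L J : ℕ) : ∀ w : List α, (chop L J w).flatten = w := by
  induction J with
  | zero => intro w; simp [chop]
  | succ J ih => intro w; rw [chop, List.flatten_cons, ih, List.take_append_drop]

theorem chop_length (L J : ℕ) : ∀ w : List α, (chop L J w).length = J + 1 := by
  induction J with
  | zero => intro w; rfl
  | succ J ih => intro w; rw [chop, List.length_cons, ih]

theorem chop_mem {L r : ℕ} (hr : r ≤ L) (J : ℕ) : ∀ w : List α, w.length = J * L + r →
    ∀ b ∈ chop L J w, b.length ≤ L := by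
  induction J with
  | zero =>
    intro w hw b hb
    rw [chop, List.mem_singleton] at hb
    rw [hb, hw]
    omega
  | succ J ih =>
    intro w hw b hb
    rw [chop] at hb
    rcases List.mem_cons.1 hb with rfl | hb
    · rw [List.length_take]; exact min_le_left _ _
    · refine ih (w.drop L) ?_ b hb
      rw [List.length_drop, hw, Nat.succ_mul]
      omega

/-- the sum of a function over the first `J` blocks -/
noncomputable def SX (X : List α → ℝ) (L : ℕ) : ℕ → List α → ℝ
  | 0, _ => 0
  | J+1, w => X (w.take L) + SX X L J (w.drop L)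

theorem SX_chop (X : List α → ℝ) {L r : ℕ} (hr : r ≤ L) (J : ℕ) : ∀ w : List α,
    w.length = J * L + r →
    ∃ v : List α, v.length ≤ L ∧ ((chop L J w).map X).sum = SX X L J w + X v := by
  induction J with
  | zero =>
    intro w hw
    exact ⟨w, by omega, by simp [chop, SX]⟩
  | succ J ih =>
    intro w hw
    obtain ⟨v, hv, h⟩ := ih (w.drop L) (by rw [List.length_drop, hw, Nat.succ_mul]; omega)
    refine ⟨v, hv, ?_⟩
    rw [chop, List.map_cons, List.sum_cons, h, SX]
    ring

theorem Ex_SX [Fintype α] {p : α → ℝ} (hp0 : ∀ x, 0 ≤ p x) (hp1 : ∑ x, p x = 1) (X : List α → ℝ)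
    (l : ℝ) (L r J : ℕ) : Ex p (J * L + r) (fun w => Real.exp (-(l * SX X L J w))) =
      (Ex p L (fun b => Real.exp (-(l * X b)))) ^ J := by
  induction J with
  | zero =>
    rw [pow_zero]
    have : (fun w : List α => Real.exp (-(l * SX X L 0 w))) = fun _ => 1 := by
      funext w; simp [SX]
    rw [this, Ex_const hp1]
  | succ J ih =>
    have e1 : (J + 1) * L + r = (J * L + r) + L := by ring
    have h1 : (fun w : List α => Ex p L (fun b => Real.exp (-(l * SX X L (J + 1) (b ++ w))))) =
        fun w => Ex p L (fun b => Real.exp (-(l * X b))) * Real.exp (-(l * SX X L J w)) := by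
      funext w
      rw [mul_comm (Ex p L (fun b => Real.exp (-(l * X b)))) (Real.exp (-(l * SX X L J w))), ← Ex_mul]
      apply Ex_congr hp0
      intro b hb
      rw [SX, List.take_left' hb, List.drop_left' hb, ← Real.exp_add]
      congr 1
      ring
    rw [e1, Ex_append, h1, Ex_mul, ih, pow_succ, mul_comm]

end chop

/-! ### the theorem -/

variable {m : ℕ}

theorem abs_drift {p : Letter m → ℝ} (hp0 : ∀ x, 0 ≤ p x) (hp1 : ∑ x, p x = 1) : |drift p| ≤ 1 := by
  unfold drift
  refine (Finset.abs_sum_le_sum_abs _ _).trans ?_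
  rw [← hp1]
  refine Finset.sum_le_sum fun x _ => ?_
  rw [abs_mul, abs_sn, mul_one, abs_of_nonneg (hp0 x)]

/-- the score of a block -/
noncomputable def score (σ : ℝ) (b : List (Letter m)) : ℝ :=
  4 * σ * ((exs b : ℤ) : ℝ) - 2 * ((netc b : ℤ) : ℝ)

theorem abs_score {σ : ℝ} (hσ : |σ| = 1) (b : List (Letter m)) : |score σ b| ≤ 6 * b.length := by
  unfold score
  have h1 : |((exs b : ℤ) : ℝ)| ≤ b.length := by
    have := abs_exs b
    exact_mod_cast this
  have h2 : |((netc b : ℤ) : ℝ)| ≤ b.length := by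
    have h3 : 0 ≤ netc b := Finset.sum_nonneg fun ρ _ => abs_nonneg _
    have h4 : |netc b| ≤ b.length := by rw [abs_of_nonneg h3]; exact netc_le b
    exact_mod_cast h4
  calc _ ≤ |4 * σ * ((exs b : ℤ) : ℝ)| + |2 * ((netc b : ℤ) : ℝ)| := abs_sub _ _
    _ ≤ 4 * b.length + 2 * b.length := by
        rw [abs_mul, abs_mul, abs_mul, hσ]
        norm_num
        linarith
    _ = _ := by ring

theorem score_sum (σ : ℝ) (B : List (List (Letter m))) :
    (B.map (score σ)).sum = 4 * σ * ((exs B.flatten : ℤ) : ℝ) - 2 * (((B.map netc).sum : ℤ) : ℝ) := by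
  induction B with
  | nil => simp [exs]
  | cons b B ih =>
    rw [List.map_cons, List.sum_cons, ih, List.flatten_cons, exs_append, List.map_cons, List.sum_cons]
    unfold score
    push_cast
    ring

/-- the exponential moment of the score -/
theorem score_moment {p : Letter m → ℝ} (hp0 : ∀ x, 0 ≤ p x) (hp1 : ∑ x, p x = 1)
    (hirr : ∀ i, 0 < p (true, i) + p (false, i)) (hd : drift p ≠ 0) :
    ∃ (σ l : ℝ) (L : ℕ), |σ| = 1 ∧ 0 < l ∧ 0 < L ∧
      Ex p L (fun b => Real.exp (-(l * score σ b))) ≤ Real.exp (-(3 / 4 * (l * |drift p| * L))) := by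
  obtain ⟨d, hdd⟩ : ∃ d, d = |drift p| := ⟨_, rfl⟩
  have hd0 : 0 < d := by rw [hdd]; exact abs_pos.2 hd
  have hd1 : d ≤ 1 := by rw [hdd]; exact abs_drift hp0 hp1
  obtain ⟨σ, hσ, hσd⟩ : ∃ σ : ℝ, |σ| = 1 ∧ σ * drift p = d := by
    rcases le_total 0 (drift p) with h | h
    · exact ⟨1, abs_one, by rw [hdd, abs_of_nonneg h, one_mul]⟩
    · exact ⟨-1, by simp, by rw [hdd, abs_of_nonpos h]; ring⟩
  obtain ⟨K, hK0, hK⟩ := netc_moment hp0 hp1 hirr (show 0 < d / 4 by positivity)
  rw [← hdd] at hK
  obtain ⟨L, hL⟩ := exists_nat_ge (4 * K / d + 1)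
  have hL1 : (1:ℝ) ≤ L := by
    have : 0 ≤ 4 * K / d := by positivity
    linarith
  have hL0 : 0 < L := by exact_mod_cast (by linarith : (0:ℝ) < L)
  have hLK : 4 * K ≤ d * L := by
    have : 4 * K / d ≤ L := by linarith
    rw [div_le_iff₀ hd0] at this
    linarith
  refine ⟨σ, d / (144 * L), L, hσ, by positivity, hL0, ?_⟩
  rw [← hdd]
  obtain ⟨l, hl⟩ : ∃ l : ℝ, l = d / (144 * L) := ⟨_, rfl⟩
  rw [← hl]
  have hl0 : 0 < l := by rw [hl]; positivity
  have hlL : l * (144 * L) = d := by rw [hl]; field_simp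
  have hmean : d * L ≤ Ex p L (score σ) := by
    have h1 : Ex p L (score σ) = 4 * σ * (drift p * L) + (-2) * Ex p L (fun w => ((netc w : ℤ) : ℝ)) := by
      rw [← exs_moment hp1 L, ← Ex_mul, ← Ex_mul, ← Ex_add]
      congr 1
      funext w
      unfold score
      ring
    rw [h1]
    have h2 := hK L
    have h3 : 4 * σ * (drift p * L) = 4 * (d * L) := by rw [← hσd]; ring
    rw [h3]
    nlinarith
  have hpt : ∀ b : List (Letter m), b.length = L →
      Real.exp (-(l * score σ b)) ≤ (1 + l * d * L / 4) + (-l) * score σ b := by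
    intro b hb
    have h1 := abs_score hσ b
    rw [hb] at h1
    have h2 : |-(l * score σ b)| ≤ 1 := by
      rw [abs_neg, abs_mul, abs_of_pos hl0]
      calc l * |score σ b| ≤ l * (6 * L) := by gcongr
        _ ≤ 1 := by linarith
    have h3 := Real.abs_exp_sub_one_sub_id_le h2
    have h4 := (abs_le.1 h3).2
    have h5 : (-(l * score σ b))^2 ≤ l * d * L / 4 := by
      rw [neg_sq, mul_pow, ← sq_abs (score σ b)]
      calc l^2 * |score σ b|^2 ≤ l^2 * (6 * L)^2 := by gcongr
        _ = l * (l * (144 * L)) * L / 4 := by ring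
        _ = _ := by rw [hlL]
    linarith
  calc Ex p L (fun b => Real.exp (-(l * score σ b)))
      ≤ Ex p L (fun b => (1 + l * d * L / 4) + (-l) * score σ b) := Ex_mono hp0 L _ _ hpt
    _ = (1 + l * d * L / 4) + (-l) * Ex p L (score σ) := by rw [Ex_add, Ex_mul, Ex_const hp1]
    _ ≤ (1 + l * d * L / 4) + (-l) * (d * L) := by
        have := mul_le_mul_of_nonneg_left hmean hl0.le
        linarith
    _ ≤ Real.exp (-(3 / 4 * (l * d * L))) := by
        have := Real.add_one_le_exp (-(3 / 4 * (l * d * L)))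
        linarith

theorem single_blocks {N : ℕ} (u : List (Letter N)) :
    (u.map (fun x => [x])).flatten = u ∧ ((u.map (fun x => [x])).map netc).sum ≤ u.length := by
  induction u with
  | nil => simp
  | cons x u ih =>
    refine ⟨?_, ?_⟩
    · rw [List.map_cons, List.flatten_cons, ih.1]; rfl
    · rw [List.map_cons, List.map_cons, List.sum_cons, List.length_cons]
      have h1 := netc_le [x]
      have h2 : (([x] : List (Letter N)).length : ℤ) = 1 := rfl
      rw [h2] at h1
      push_cast
      linarith [ih.2]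

theorem emb_blocks {N : ℕ} (h : m ≤ N) (B : List (List (Letter m))) :
    (B.map (List.map (emb h))).flatten = B.flatten.map (emb h) ∧
      ((B.map (List.map (emb h))).map netc).sum = (B.map netc).sum := by
  induction B with
  | nil => simp
  | cons b B ih =>
    refine ⟨?_, ?_⟩
    · rw [List.map_cons, List.flatten_cons, ih.1, List.flatten_cons, List.map_append]
    · rw [List.map_cons, List.map_cons, List.sum_cons, ih.2, netc_emb, List.map_cons, List.sum_cons]

open Classical in
theorem final {N : ℕ} (hmN : m ≤ N) (M : ℕ) {p : Letter m → ℝ} (hp0 : ∀ x, 0 ≤ p x)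
    (hp1 : ∑ x, p x = 1) (hirr : ∀ i, 0 < p (true, i) + p (false, i)) (hd : drift p ≠ 0) :
    ∃ c : ℝ, 0 < c ∧ ∃ C : ℝ, ∀ n : ℕ, Ex p n (fun w =>
      if ∃ (u : List (Letter N)) (k : ℕ) (g : LaurentPolynomial ℤ),
        Reach M (dia (braidClosure N) (u ++ w.map (emb hmN))).fPoly k g ∧
        ((u.length + k + nrm g : ℕ) : ℝ) ≤ c * n then 1 else 0) ≤ C * Real.exp (-(c * n)) := by
  have hm : 0 < m := by
    by_contra h
    have h0 : m = 0 := by omega
    subst h0
    have : IsEmpty (Letter 0) := ⟨fun x => absurd x.2.2 (by omega)⟩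
    rw [Finset.univ_eq_empty, Finset.sum_empty] at hp1
    exact zero_ne_one hp1
  have hN : 0 < N := by omega
  obtain ⟨σ, l, L, hσ, hl0, hL0, hmom⟩ := score_moment hp0 hp1 hirr hd
  obtain ⟨d, hdd⟩ : ∃ d, d = |drift p| := ⟨_, rfl⟩
  have hd0 : 0 < d := by rw [hdd]; exact abs_pos.2 hd
  rw [← hdd] at hmom
  have hLr : (0:ℝ) < L := by exact_mod_cast hL0
  obtain ⟨ε, hε⟩ : ∃ ε : ℝ, ε = d * L / 8 := ⟨_, rfl⟩
  have hε0 : 0 < ε := by rw [hε]; positivity
  obtain ⟨C0, hC0⟩ := main hN M L hε0
  obtain ⟨S, hS⟩ : ∃ S : ℝ, S = C0 + 6 + ε := ⟨_, rfl⟩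
  have hC00 : (0:ℝ) ≤ C0 := Nat.cast_nonneg _
  have hS0 : 0 < S := by rw [hS]; positivity
  obtain ⟨c, hc⟩ : ∃ c : ℝ, c = min (d / (8 * S)) (l * d / 2) := ⟨_, rfl⟩
  have hc0 : 0 < c := by
    rw [hc]
    apply lt_min <;> positivity
  have hc1 : S * c ≤ d / 8 := by
    have h1 : c ≤ d / (8 * S) := by rw [hc]; exact min_le_left _ _
    rw [le_div_iff₀ (by positivity)] at h1
    linarith
  have hc2 : c ≤ l * d / 2 := by rw [hc]; exact min_le_right _ _
  obtain ⟨K3, hK3⟩ : ∃ K3 : ℝ, K3 = d * L / 4 + C0 + 6 * L := ⟨_, rfl⟩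
  refine ⟨c, hc0, Real.exp (l * K3 + l * d * L / 2), fun n => ?_⟩
  obtain ⟨J, hJ⟩ : ∃ J, J = n / L := ⟨_, rfl⟩
  obtain ⟨r, hr⟩ : ∃ r, r = n % L := ⟨_, rfl⟩
  have hn : n = J * L + r := by
    rw [hJ, hr, mul_comm]
    exact (Nat.div_add_mod n L).symm
  have hrL : r ≤ L := by rw [hr]; exact (Nat.mod_lt n hL0).le
  have hnJ : (n:ℝ) ≤ (J + 1) * L := by
    have : n ≤ (J + 1) * L := by rw [hn]; nlinarith
    exact_mod_cast this
  have hpt : ∀ w : List (Letter m), w.length = n →
      (if ∃ (u : List (Letter N)) (k : ℕ) (g : LaurentPolynomial ℤ),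
        Reach M (dia (braidClosure N) (u ++ w.map (emb hmN))).fPoly k g ∧
        ((u.length + k + nrm g : ℕ) : ℝ) ≤ c * n then (1:ℝ) else 0) ≤
      Real.exp (l * (d * L / 4 * J + K3)) * Real.exp (-(l * SX (score σ) L J w)) := by
    intro w hw
    split_ifs with hbad
    · obtain ⟨u, k, g, hR, hkg⟩ := hbad
      rw [hn] at hw
      have hfl := chop_flatten L J w
      obtain ⟨s1, s2⟩ := single_blocks u
      obtain ⟨t1, t2⟩ := emb_blocks hmN (chop L J w)
      obtain ⟨B, hB⟩ : ∃ B : List (List (Letter N)), B = u.map (fun x => [x]) ++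
        (chop L J w).map (List.map (emb hmN)) := ⟨_, rfl⟩
      have hBf : B.flatten = u ++ w.map (emb hmN) := by
        rw [hB, List.flatten_append, s1, t1, hfl]
      have hBm : ∀ b ∈ B, b.length ≤ L := by
        intro b hb
        rw [hB] at hb
        rcases List.mem_append.1 hb with hb | hb
        · obtain ⟨x, _, rfl⟩ := List.mem_map.1 hb
          exact hL0
        · obtain ⟨b', hb', rfl⟩ := List.mem_map.1 hb
          rw [List.length_map]
          exact chop_mem hrL J w hw b' hb'
      have hBl : (B.length : ℝ) = u.length + (J + 1) := by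
        rw [hB, List.length_append, List.length_map, List.length_map, chop_length]
        push_cast
        ring
      have hBn : (((B.map netc).sum : ℤ) : ℝ) ≤
          u.length + ((((chop L J w).map netc).sum : ℤ) : ℝ) := by
        have h1 : (B.map netc).sum ≤ u.length + ((chop L J w).map netc).sum := by
          rw [hB, List.map_append, List.sum_append, t2]
          linarith
        exact_mod_cast h1
      have h1 := hC0 _ (Std.closure N) B hBm k g (by rw [hBf]; exact hR)
      rw [writhe_closure, hBf, exs_append, exs_emb, hBl] at h1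
      obtain ⟨v, hv, hsum⟩ := SX_chop (score σ) hrL J w hw
      rw [score_sum, hfl] at hsum
      have hv6 : |score σ v| ≤ 6 * L := by
        refine (abs_score hσ v).trans ?_
        have : (v.length : ℝ) ≤ L := by exact_mod_cast hv
        linarith
      have hv6' := (abs_le.1 hv6).1
      have heu : |((exs u : ℤ) : ℝ)| ≤ u.length := by
        have := abs_exs u
        exact_mod_cast this
      have h2 : 4 * |((exs w : ℤ) : ℝ)| - 4 * u.length ≤
          |3 * ((exs u + exs w : ℤ) : ℝ) + ((exs u + exs w : ℤ) : ℝ)| := by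
        have e1 : 3 * ((exs u + exs w : ℤ) : ℝ) + ((exs u + exs w : ℤ) : ℝ) =
          4 * (((exs w : ℤ) : ℝ) + ((exs u : ℤ) : ℝ)) := by push_cast; ring
        rw [e1, abs_mul]
        have e2 := abs_sub_abs_le_abs_sub ((exs w : ℤ) : ℝ) (-((exs u : ℤ) : ℝ))
        rw [abs_neg, sub_neg_eq_add] at e2
        norm_num
        linarith
      have h3 : 4 * σ * ((exs w : ℤ) : ℝ) ≤ 4 * |((exs w : ℤ) : ℝ)| := by
        have h4 : σ * ((exs w : ℤ) : ℝ) ≤ |σ * ((exs w : ℤ) : ℝ)| := le_abs_self _
        rw [abs_mul, hσ, one_mul] at h4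
        linarith
      have h6 : (u.length : ℝ) + k + nrm g ≤ c * n := by
        have := hkg
        push_cast at this
        exact this
      have hu0 : (0:ℝ) ≤ u.length := Nat.cast_nonneg _
      have hk0 : (0:ℝ) ≤ k := Nat.cast_nonneg _
      have hg0 : (0:ℝ) ≤ nrm g := Nat.cast_nonneg _
      have h5 : 6 * (u.length : ℝ) + ε * u.length + C0 * (k + nrm g) ≤ d * L / 8 * (J + 1) := by
        calc 6 * (u.length : ℝ) + ε * u.length + C0 * (k + nrm g)
            ≤ S * (u.length + k + nrm g) := by
              rw [hS]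
              nlinarith
          _ ≤ S * (c * n) := by gcongr
          _ ≤ S * (c * ((J + 1) * L)) := by gcongr
          _ = (S * c) * ((J + 1) * L) := by ring
          _ ≤ (d / 8) * ((J + 1) * L) := by gcongr
          _ = _ := by ring
      have h9 : SX (score σ) L J w ≤ d * L / 4 * J + K3 := by
        rw [hK3]
        have e : SX (score σ) L J w = 4 * σ * ((exs w : ℤ) : ℝ) -
          2 * ((((chop L J w).map netc).sum : ℤ) : ℝ) - score σ v := by linarith
        rw [e]
        have h10 : 4 * |((exs w : ℤ) : ℝ)| - 2 * ((((chop L J w).map netc).sum : ℤ) : ℝ) ≤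
            d * L / 8 * (J + 1) + (C0 + d * L / 8 * (J + 1)) := by
          have e3 : ε * (u.length + (J + 1)) = ε * u.length + d * L / 8 * (J + 1) := by
            rw [hε]; ring
          have e4 : (C0:ℝ) * (k + 1 + nrm g) = C0 * (k + nrm g) + C0 := by ring
          rw [e3, e4] at h1
          linarith
        linarith
      rw [← Real.exp_add]
      have h11 : 0 ≤ l * (d * L / 4 * J + K3) + -(l * SX (score σ) L J w) := by
        have := mul_le_mul_of_nonneg_left h9 hl0.le
        linarith
      exact Real.one_le_exp h11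
    · positivity
  calc _ ≤ Ex p n (fun w => Real.exp (l * (d * L / 4 * J + K3)) *
        Real.exp (-(l * SX (score σ) L J w))) := Ex_mono hp0 n _ _ hpt
    _ = Real.exp (l * (d * L / 4 * J + K3)) *
        (Ex p L (fun b => Real.exp (-(l * score σ b)))) ^ J := by
        rw [Ex_mul]
        congr 1
        rw [hn]
        exact Ex_SX hp0 hp1 (score σ) l L r J
    _ ≤ Real.exp (l * (d * L / 4 * J + K3)) * (Real.exp (-(3 / 4 * (l * d * L)))) ^ J := by
        have h0 : 0 ≤ Ex p L (fun b => Real.exp (-(l * score σ b))) := by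
          have h1 := Ex_mono hp0 L (fun _ => 0) (fun b => Real.exp (-(l * score σ b)))
            (fun b _ => (Real.exp_pos _).le)
          rwa [Ex_const hp1] at h1
        gcongr
    _ ≤ Real.exp (l * K3 + l * d * L / 2) * Real.exp (-(c * n)) := by
        rw [← Real.exp_nat_mul, ← Real.exp_add, ← Real.exp_add]
        apply Real.exp_le_exp.2
        have h1 : c * n ≤ l * d / 2 * ((J + 1) * L) := by
          calc c * n ≤ (l * d / 2) * n := by gcongr
            _ ≤ _ := by gcongr
        nlinarith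

end Pool.Agent.D0H83.RG
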