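import Mathlib

/-!
# Random products: the Poisson equation and a first moment bound
-/

set_option autoImplicit false

namespace Pool.Agent.D0H83.RG

open Finset

section poisson

variable {G ι : Type*} [Group G] [Fintype G] [Fintype ι]

theorem harm {p : ι → ℝ} (hp0 : ∀ x, 0 ≤ p x) (hp1 : ∑ x, p x = 1) {s : ι → G}
    (hs : Submonoid.closure {g : G | ∃ x, 0 < p x ∧ s x = g} = ⊤) (u : G → ℝ)
    (hu : ∀ g, u g = ∑ x, p x * u (s x * g)) : ∃ c, ∀ g, u g = c := by
  obtain ⟨g0, hg0⟩ := Finite.exists_max u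
  refine ⟨u g0, ?_⟩
  have key : ∀ a : G, ∀ g, u g = u g0 → u (a * g) = u g0 := by
    intro a
    have ha : a ∈ Submonoid.closure {g : G | ∃ x, 0 < p x ∧ s x = g} := by rw [hs]; trivial
    induction ha using Submonoid.closure_induction with
    | mem a ha =>
      obtain ⟨x, hx, rfl⟩ := ha
      intro g hg
      have h1 : ∑ y, p y * (u g0 - u (s y * g)) = 0 := by
        have h2 : ∑ y, p y * (u g0 - u (s y * g)) = (∑ y, p y) * u g0 - ∑ y, p y * u (s y * g) := by
          rw [Finset.sum_mul, ← Finset.sum_sub_distrib]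
          refine Finset.sum_congr rfl fun y _ => ?_
          ring
        rw [h2, hp1, one_mul, ← hu, hg, sub_self]
      have h3 := (Finset.sum_eq_zero_iff_of_nonneg (fun y _ => mul_nonneg (hp0 y)
        (sub_nonneg.2 (hg0 (s y * g))))).1 h1 x (Finset.mem_univ x)
      rcases mul_eq_zero.1 h3 with h4 | h4
      · exact absurd h4 hx.ne'
      · linarith
    | one => intro g hg; rw [one_mul]; exact hg
    | mul a b _ _ iha ihb => intro g hg; rw [mul_assoc]; exact iha _ (ihb g hg)
  intro g
  have := key (g * g0⁻¹) g0 rfl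
  rwa [inv_mul_cancel_right] at this

/-- the Poisson equation -/
theorem poisson {p : ι → ℝ} (hp0 : ∀ x, 0 ≤ p x) (hp1 : ∑ x, p x = 1) {s : ι → G}
    (hs : Submonoid.closure {g : G | ∃ x, 0 < p x ∧ s x = g} = ⊤) (h : G → ℝ)
    (hh : ∑ g, h g = 0) : ∃ u : G → ℝ, ∀ g, u g - ∑ x, p x * u (s x * g) = h g := by
  classical
  let B : (G → ℝ) →ₗ[ℝ] (G → ℝ) :=
    { toFun := fun u g => u g - ∑ x, p x * u (s x * g) + ∑ g', u g'
      map_add' := by
        intro u v
        funext g
        simp only [Pi.add_apply, mul_add, Finset.sum_add_distrib]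
        ring
      map_smul' := by
        intro c u
        funext g
        simp only [Pi.smul_apply, smul_eq_mul, RingHom.id_apply, ← Finset.mul_sum]
        have : ∑ x, p x * (c * u (s x * g)) = c * ∑ x, p x * u (s x * g) := by
          rw [Finset.mul_sum]
          refine Finset.sum_congr rfl fun x _ => ?_
          ring
        rw [this]
        ring }
  have hB : ∀ u g, B u g = u g - ∑ x, p x * u (s x * g) + ∑ g', u g' := fun u g => rfl
  have hsum : ∀ u : G → ℝ, ∑ g, (u g - ∑ x, p x * u (s x * g)) = 0 := by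
    intro u
    rw [Finset.sum_sub_distrib, Finset.sum_comm]
    have : ∀ x, ∑ g, p x * u (s x * g) = p x * ∑ g, u g := by
      intro x
      rw [Finset.mul_sum, ← Equiv.sum_comp (Equiv.mulLeft (s x)) (fun g => p x * u g)]
      rfl
    rw [Finset.sum_congr rfl (fun x _ => this x), ← Finset.sum_mul, hp1, one_mul, sub_self]
  have hG : (0:ℝ) < Fintype.card G := by
    exact_mod_cast Fintype.card_pos
  have hs0 : ∀ u : G → ℝ, (∑ g, B u g) = Fintype.card G * ∑ g', u g' := by
    intro u
    simp only [hB]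
    rw [Finset.sum_add_distrib, hsum, zero_add, Finset.sum_const, Finset.card_univ, nsmul_eq_mul]
  have hinj : Function.Injective B := by
    rw [injective_iff_map_eq_zero]
    intro u hu
    have h1 : Fintype.card G * ∑ g', u g' = 0 := by
      rw [← hs0, hu]; simp
    have h2 : ∑ g', u g' = 0 := by
      rcases mul_eq_zero.1 h1 with h3 | h3
      · exact absurd h3 hG.ne'
      · exact h3
    obtain ⟨c, hc⟩ := harm hp0 hp1 hs u (by
      intro g
      have h3 := congrFun hu g
      rw [hB, h2, add_zero, Pi.zero_apply] at h3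
      linarith)
    have h3 : (Fintype.card G : ℝ) * c = 0 := by
      rw [← h2]
      simp [hc]
    have h4 : c = 0 := by
      rcases mul_eq_zero.1 h3 with h5 | h5
      · exact absurd h5 hG.ne'
      · exact h5
    funext g
    rw [hc g, h4]
    rfl
  obtain ⟨u, hu⟩ := (LinearMap.injective_iff_surjective.1 hinj) h
  refine ⟨u, fun g => ?_⟩
  have h1 : Fintype.card G * ∑ g', u g' = 0 := by
    rw [← hs0, hu, hh]
  have h2 : ∑ g', u g' = 0 := by
    rcases mul_eq_zero.1 h1 with h3 | h3
    · exact absurd h3 hG.ne'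
    · exact h3
  have h3 := congrFun hu g
  rw [hB, h2, add_zero] at h3
  exact h3

end poisson

/-! ### expectations over random words -/

section expect

variable {α : Type*} [Fintype α]

/-- the expectation over the words of `n` independent letters with the weights `p` -/
noncomputable def Ex (p : α → ℝ) : ℕ → (List α → ℝ) → ℝ
  | 0, F => F []
  | n+1, F => Ex p n (fun w => ∑ x, p x * F (x :: w))

variable {p : α → ℝ}

theorem Ex_add (n : ℕ) : ∀ F F' : List α → ℝ, Ex p n (fun w => F w + F' w) = Ex p n F + Ex p n F' := by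
  induction n with
  | zero => intro F F'; rfl
  | succ n ih =>
    intro F F'
    simp only [Ex]
    rw [← ih]
    congr 1
    funext w
    rw [← Finset.sum_add_distrib]
    refine Finset.sum_congr rfl fun x _ => ?_
    ring

theorem Ex_mul (n : ℕ) : ∀ (c : ℝ) (F : List α → ℝ), Ex p n (fun w => c * F w) = c * Ex p n F := by
  induction n with
  | zero => intro c F; rfl
  | succ n ih =>
    intro c F
    simp only [Ex]
    rw [← ih]
    congr 1
    funext w
    rw [Finset.mul_sum]
    refine Finset.sum_congr rfl fun x _ => ?_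
    ring

theorem Ex_const (hp1 : ∑ x, p x = 1) (n : ℕ) (c : ℝ) : Ex p n (fun _ => c) = c := by
  induction n with
  | zero => rfl
  | succ n ih =>
    simp only [Ex]
    rw [← Finset.sum_mul, hp1, one_mul]
    exact ih

theorem Ex_mono (hp0 : ∀ x, 0 ≤ p x) (n : ℕ) : ∀ F F' : List α → ℝ,
    (∀ w : List α, w.length = n → F w ≤ F' w) → Ex p n F ≤ Ex p n F' := by
  induction n with
  | zero => intro F F' h; exact h [] rfl
  | succ n ih =>
    intro F F' h
    simp only [Ex]
    apply ih
    intro w hw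
    refine Finset.sum_le_sum fun x _ => ?_
    exact mul_le_mul_of_nonneg_left (h (x :: w) (by simp [hw])) (hp0 x)

theorem Ex_congr (hp0 : ∀ x, 0 ≤ p x) (n : ℕ) (F F' : List α → ℝ)
    (h : ∀ w : List α, w.length = n → F w = F' w) : Ex p n F = Ex p n F' :=
  le_antisymm (Ex_mono hp0 n _ _ fun w hw => (h w hw).le) (Ex_mono hp0 n _ _ fun w hw => (h w hw).ge)

theorem Ex_sum {β : Type*} (S : Finset β) (n : ℕ) (F : β → List α → ℝ) (hp0 : ∀ x, 0 ≤ p x) :
    Ex p n (fun w => ∑ b ∈ S, F b w) = ∑ b ∈ S, Ex p n (F b) := by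
  classical
  induction S using Finset.induction_on with
  | empty =>
    simp only [Finset.sum_empty]
    have := Ex_mul (p := p) n 0 (fun _ => 0)
    simpa using this
  | insert a S ha ih =>
    rw [Finset.sum_insert ha, ← ih, ← Ex_add]
    congr 1
    funext w
    rw [Finset.sum_insert ha]

theorem Ex_append (n L : ℕ) : ∀ F : List α → ℝ,
    Ex p (n + L) F = Ex p n (fun w => Ex p L (fun b => F (b ++ w))) := by
  induction L with
  | zero => intro F; rfl
  | succ L ih =>
    intro F
    show Ex p (n + L) (fun w => ∑ x, p x * F (x :: w)) = _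
    rw [ih]
    rfl

theorem Ex_ofFn (n : ℕ) : ∀ F : List α → ℝ,
    ∑ w : Fin n → α, F (List.ofFn w) * ∏ j, p (w j) = Ex p n F := by
  induction n with
  | zero => intro F; simp [Ex]
  | succ n ih =>
    intro F
    simp only [Ex]
    rw [← ih, ← (Fin.consEquiv (fun _ : Fin (n+1) => α)).sum_comp, Fintype.sum_prod_type,
      Finset.sum_comm]
    refine Finset.sum_congr rfl fun w _ => ?_
    rw [Finset.sum_mul]
    refine Finset.sum_congr rfl fun x _ => ?_
    rw [List.ofFn_succ, Fin.prod_univ_succ]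
    simp only [Fin.consEquiv_apply, Fin.cons_zero, Fin.cons_succ]
    ring

end expect

/-! ### the first moment bound -/

section walk

variable {G α : Type*} [Group G] [Fintype G] [Fintype α]

/-- the product of a word -/
def pg (s : α → G) : List α → G
  | [] => 1
  | x :: w => s x * pg s w

/-- an additive functional of the random walk -/
noncomputable def AF (s : α → G) (f : α → G → ℝ) : List α → ℝ
  | [] => 0
  | x :: w => AF s f w + f x (pg s w)

/-- the mean of the increments -/
noncomputable def mean (p : α → ℝ) (f : α → G → ℝ) : ℝ :=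
  (∑ g, ∑ x, p x * f x g) / Fintype.card G

theorem first_moment {p : α → ℝ} (hp0 : ∀ x, 0 ≤ p x) (hp1 : ∑ x, p x = 1) {s : α → G}
    (hs : Submonoid.closure {g : G | ∃ x, 0 < p x ∧ s x = g} = ⊤) (f : α → G → ℝ)
    (hf : ∀ x g, |f x g| ≤ 1) {δ : ℝ} (hδ : 0 < δ) :
    ∃ K : ℝ, 0 ≤ K ∧ ∀ n : ℕ, Ex p n (fun w => |AF s f w|) ≤ (|mean p f| + δ) * n + K := by
  have hG : (0:ℝ) < Fintype.card G := by
    exact_mod_cast Fintype.card_pos
  obtain ⟨μ, hμ⟩ : ∃ μ, μ = mean p f := ⟨_, rfl⟩
  obtain ⟨u, hu⟩ := poisson hp0 hp1 hs (fun g => (∑ x, p x * f x g) - μ) (by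
    rw [Finset.sum_sub_distrib, Finset.sum_const, Finset.card_univ, nsmul_eq_mul, hμ]
    unfold mean
    field_simp
    ring)
  obtain ⟨U, hU0, hU⟩ : ∃ U : ℝ, 0 ≤ U ∧ ∀ g, |u g| ≤ U := by
    refine ⟨∑ g, |u g|, Finset.sum_nonneg fun _ _ => abs_nonneg _, fun g => ?_⟩
    exact Finset.single_le_sum (f := fun g => |u g|) (fun _ _ => abs_nonneg _) (Finset.mem_univ g)
  obtain ⟨K0, hK0⟩ : ∃ K0 : ℝ, K0 = 1 + |μ| + 2 * U := ⟨_, rfl⟩
  have hK00 : 0 < K0 := by rw [hK0]; positivity
  obtain ⟨Y, hY⟩ : ∃ Y : List α → ℝ, Y = fun w => AF s f w - μ * w.length + u (pg s w) := ⟨_, rfl⟩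
  have step : ∀ w, ∑ x, p x * (Y (x :: w))^2 ≤ (Y w)^2 + K0^2 := by
    intro w
    obtain ⟨Δ, hΔ⟩ : ∃ Δ : α → ℝ, Δ = fun x => f x (pg s w) - μ + u (s x * pg s w) - u (pg s w) :=
      ⟨_, rfl⟩
    have h1 : ∀ x, Y (x :: w) = Y w + Δ x := by
      intro x
      rw [hY, hΔ]
      simp only [AF, pg, List.length_cons]
      push_cast
      ring
    have h2 : ∑ x, p x * Δ x = 0 := by
      have h3 := hu (pg s w)
      have h4 : ∑ x, p x * Δ x = (∑ x, p x * f x (pg s w)) - (∑ x, p x) * μ +
          (∑ x, p x * u (s x * pg s w)) - (∑ x, p x) * u (pg s w) := by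
        rw [hΔ, Finset.sum_mul, Finset.sum_mul, ← Finset.sum_sub_distrib, ← Finset.sum_add_distrib,
          ← Finset.sum_sub_distrib]
        refine Finset.sum_congr rfl fun x _ => ?_
        ring
      rw [h4, hp1]
      linarith
    have h3 : ∀ x, |Δ x| ≤ K0 := by
      intro x
      rw [hΔ, hK0]
      simp only
      have a1 := hf x (pg s w)
      have a2 := hU (s x * pg s w)
      have a3 := hU (pg s w)
      calc _ ≤ |f x (pg s w) - μ + u (s x * pg s w)| + |u (pg s w)| := abs_sub _ _
        _ ≤ (|f x (pg s w) - μ| + |u (s x * pg s w)|) + |u (pg s w)| := by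
            gcongr
            exact abs_add_le _ _
        _ ≤ ((|f x (pg s w)| + |μ|) + |u (s x * pg s w)|) + |u (pg s w)| := by
            gcongr
            exact abs_sub _ _
        _ ≤ _ := by linarith
    have h4 : ∑ x, p x * (Y (x :: w))^2 = (∑ x, p x) * (Y w)^2 + 2 * Y w * (∑ x, p x * Δ x) +
        ∑ x, p x * (Δ x)^2 := by
      rw [Finset.sum_mul, Finset.mul_sum, ← Finset.sum_add_distrib, ← Finset.sum_add_distrib]
      refine Finset.sum_congr rfl fun x _ => ?_
      rw [h1 x]
      ring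
    have h5 : ∑ x, p x * (Δ x)^2 ≤ K0^2 := by
      calc ∑ x, p x * (Δ x)^2 ≤ ∑ x, p x * K0^2 := by
            refine Finset.sum_le_sum fun x _ => ?_
            refine mul_le_mul_of_nonneg_left ?_ (hp0 x)
            rw [← sq_abs]
            exact pow_le_pow_left₀ (abs_nonneg _) (h3 x) 2
        _ = K0^2 := by rw [← Finset.sum_mul, hp1, one_mul]
    rw [h4, h2, hp1]
    linarith
  have hsq : ∀ n : ℕ, Ex p n (fun w => (Y w)^2) ≤ U^2 + n * K0^2 := by
    intro n
    induction n with
    | zero =>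
      simp only [Ex, hY, AF, pg, List.length_nil]
      have := hU 1
      push_cast
      have h1 : (0 - μ * 0 + u 1)^2 ≤ U^2 := by
        rw [mul_zero, sub_zero, zero_add, ← sq_abs]
        exact pow_le_pow_left₀ (abs_nonneg _) this 2
      linarith
    | succ n ih =>
      simp only [Ex]
      calc _ ≤ Ex p n (fun w => (Y w)^2 + K0^2) := Ex_mono hp0 n _ _ fun w _ => step w
        _ = Ex p n (fun w => (Y w)^2) + K0^2 := by rw [Ex_add, Ex_const hp1]
        _ ≤ _ := by push_cast; linarith
  obtain ⟨D, hD⟩ : ∃ D : ℝ, D = K0^2 / (4 * δ) := ⟨_, rfl⟩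
  have hD0 : 0 < D := by rw [hD]; positivity
  refine ⟨D + U^2 / (4 * D) + U, by positivity, fun n => ?_⟩
  have hpt : ∀ w : List α, w.length = n → |AF s f w| ≤ (1 / (4 * D)) * (Y w)^2 +
      (D + |μ| * n + U) := by
    intro w hw
    have h1 : AF s f w = Y w + μ * n - u (pg s w) := by
      rw [hY, ← hw]; ring
    have h2 : |Y w| ≤ (1 / (4 * D)) * (Y w)^2 + D := by
      have h3 : 0 ≤ (|Y w| - 2 * D)^2 := sq_nonneg _
      have h4 : (1 / (4 * D)) * (Y w)^2 + D = |Y w| + (1 / (4 * D)) * (|Y w| - 2 * D)^2 := by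
        have : (Y w)^2 = |Y w|^2 := (sq_abs _).symm
        rw [this]
        field_simp
        ring
      rw [h4]
      have : 0 ≤ (1 / (4 * D)) * (|Y w| - 2 * D)^2 := by positivity
      linarith
    rw [h1]
    calc _ ≤ |Y w + μ * n| + |u (pg s w)| := abs_sub _ _
      _ ≤ (|Y w| + |μ * n|) + |u (pg s w)| := by
          gcongr
          exact abs_add_le _ _
      _ ≤ _ := by
          rw [abs_mul, Nat.abs_cast]
          have := hU (pg s w)
          linarith
  calc Ex p n (fun w => |AF s f w|) ≤ Ex p n (fun w => (1 / (4 * D)) * (Y w)^2 +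
        (D + |μ| * n + U)) := Ex_mono hp0 n _ _ hpt
    _ = (1 / (4 * D)) * Ex p n (fun w => (Y w)^2) + (D + |μ| * n + U) := by
        rw [Ex_add, Ex_mul, Ex_const hp1]
    _ ≤ (1 / (4 * D)) * (U^2 + n * K0^2) + (D + |μ| * n + U) := by
        have := hsq n
        gcongr
    _ = _ := by
        have h1 : 1 / (4 * D) * (n * K0^2) = δ * n := by
          rw [hD]
          field_simp
        rw [mul_add, h1, ← hμ]
        ring

end walk

end Pool.Agent.D0H83.RG
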