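import Pool.Agent.D0H83.RG.Poisson
import Pool.Agent.D0H83.GD.Fin

/-!
# The mean net crossing number of a random braid word
-/

set_option autoImplicit false

namespace Pool.Agent.D0H83.RG

open Finset Pool.Agent.W639.RB Pool.Agent.D0H83.FB Pool.Agent.D0H83.GD Pool.Agent.TH561

variable {m : ℕ}

/-- the transposition of a letter -/
def sx (x : Letter m) : Equiv.Perm (Fin m) := swp m x.2

/-- the sign of a letter -/
def sn (x : Letter m) : ℝ := if x.1 then 1 else -1

theorem abs_sn (x : Letter m) : |sn x| = 1 := by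
  unfold sn; split_ifs <;> simp

theorem closure_top {p : Letter m → ℝ} (hp0 : ∀ x, 0 ≤ p x)
    (hirr : ∀ i, 0 < p (true, i) + p (false, i)) :
    Submonoid.closure {g : Equiv.Perm (Fin m) | ∃ x, 0 < p x ∧ sx x = g} = ⊤ := by
  rcases m with _ | n
  · exact Subsingleton.elim _ _
  · rw [eq_top_iff, ← Equiv.Perm.mclosure_swap_castSucc_succ n, Submonoid.closure_le]
    rintro _ ⟨i, rfl⟩
    apply Submonoid.subset_closure
    have hi : (i : ℕ) < n + 1 - 1 := by have := i.2; omega
    have h1 := hirr ⟨i, hi⟩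
    have hs : ∀ b : Bool, sx ((b, ⟨i, hi⟩) : Letter (n+1)) = Equiv.swap i.castSucc i.succ := by
      intro b
      unfold sx
      have h2 : ((((b, (⟨i, hi⟩ : Fin (n + 1 - 1))) : Letter (n+1)).2 : Fin (n + 1 - 1)) : ℕ) + 1 < n + 1 := by
        have := i.2
        simp only
        omega
      rw [swp_eq h2]
      rfl
    by_cases h2 : 0 < p (true, ⟨i, hi⟩)
    · exact ⟨(true, ⟨i, hi⟩), h2, hs true⟩
    · refine ⟨(false, ⟨i, hi⟩), ?_, hs false⟩
      push Not at h2
      linarith

open Classical in
/-- the increments of the crossing number of the pair of strands `τ` -/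
noncomputable def fx (τ : Equiv.Perm (Fin m)) (x : Letter m) (g : Equiv.Perm (Fin m)) : ℝ :=
  if sx x * g * τ = g then sn x else 0

theorem abs_fx (τ : Equiv.Perm (Fin m)) (x : Letter m) (g : Equiv.Perm (Fin m)) : |fx τ x g| ≤ 1 := by
  unfold fx
  split_ifs
  · rw [abs_sn]
  · simp

theorem pg_eq (w : List (Letter m)) : pg sx w = permL m (toN w) := by
  induction w with
  | nil => rfl
  | cons x w ih =>
    have h2 : toN (x :: w) = (x.1, (x.2 : ℕ)) :: toN w := rfl
    rw [pg, ih, h2, permL_cons]
    rfl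

theorem AF_eq (τ : Equiv.Perm (Fin m)) (w : List (Letter m)) :
    AF sx (fx τ) w = (cr m (toN w) (permL m (toN w) * τ) : ℝ) := by
  induction w with
  | nil => simp [AF, cr, toN]
  | cons x w ih =>
    have h2 : toN (x :: w) = (x.1, (x.2 : ℕ)) :: toN w := rfl
    rw [AF, ih, h2, cr, permL_cons, pg_eq]
    have h3 : (swp m (x.2 : ℕ))⁻¹ * (swp m (x.2 : ℕ) * permL m (toN w) * τ) =
        permL m (toN w) * τ := by group
    have h3' : (swp m ((x.1, (x.2 : ℕ)) : Bool × ℕ).2)⁻¹ *
        (swp m ((x.1, (x.2 : ℕ)) : Bool × ℕ).2 * permL m (toN w) * τ) =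
        permL m (toN w) * τ := h3
    rw [h3']
    unfold fx
    have h4 : (sx x * permL m (toN w) * τ = permL m (toN w)) ↔
        (permL m (toN w) = swp m ((x.1, (x.2 : ℕ)) : Bool × ℕ).2 * permL m (toN w) * τ) := by
      constructor
      · intro h; exact h.symm
      · intro h; exact h.symm
    by_cases h5 : sx x * permL m (toN w) * τ = permL m (toN w)
    · rw [if_pos h5, if_pos (h4.1 h5)]
      unfold sn sgn
      simp only
      split_ifs <;> push_cast <;> ring
    · rw [if_neg h5, if_neg (fun h => h5 (h4.2 h))]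
      push_cast
      ring

theorem netc_AF (w : List (Letter m)) : ((netc w : ℤ) : ℝ) = ∑ τ, |AF sx (fx τ) w| := by
  rw [netc_eq]
  push_cast
  rw [← Equiv.sum_comp (Equiv.mulLeft (permL m (toN w))) (fun ρ => |((cr m (toN w) ρ : ℤ) : ℝ)|)]
  refine Finset.sum_congr rfl fun τ _ => ?_
  rw [AF_eq]
  rfl

/-- the drift -/
noncomputable def drift (p : Letter m → ℝ) : ℝ := ∑ x, p x * sn x

open Classical in
/-- the number of positions of a pair of strands -/
noncomputable def kap (τ : Equiv.Perm (Fin m)) (x : Letter m) : ℕ :=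
  (univ.filter (fun g : Equiv.Perm (Fin m) => sx x * g * τ = g)).card

theorem sx_conj (x y : Letter m) : ∃ c : Equiv.Perm (Fin m), c * sx y * c⁻¹ = sx x := by
  have hx : (x.2 : ℕ) + 1 < m := by have := x.2.2; omega
  have hy : (y.2 : ℕ) + 1 < m := by have := y.2.2; omega
  have h1 : IsConj (sx y) (sx x) := by
    unfold sx
    rw [swp_eq hx, swp_eq hy]
    apply Equiv.Perm.isConj_swap
    · intro h
      have := congrArg Fin.val h
      simp only at this
      omega
    · intro h
      have := congrArg Fin.val h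
      simp only at this
      omega
  exact isConj_iff.1 h1

theorem kap_eq (τ : Equiv.Perm (Fin m)) (x y : Letter m) : kap τ x = kap τ y := by
  classical
  obtain ⟨c, hc⟩ := sx_conj x y
  unfold kap
  refine Finset.card_bij (fun g _ => c⁻¹ * g) ?_ ?_ ?_
  · intro g hg
    rw [Finset.mem_filter] at hg ⊢
    refine ⟨Finset.mem_univ _, ?_⟩
    have h1 : c⁻¹ * (sx x * g * τ) = c⁻¹ * g := by rw [hg.2]
    rw [← hc] at h1
    calc sx y * (c⁻¹ * g) * τ = c⁻¹ * (c * sx y * c⁻¹ * g * τ) := by group
      _ = c⁻¹ * g := h1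
  · intro g _ g' _ h
    exact mul_left_cancel h
  · intro g hg
    rw [Finset.mem_filter] at hg
    refine ⟨c * g, ?_, by group⟩
    rw [Finset.mem_filter]
    refine ⟨Finset.mem_univ _, ?_⟩
    rw [← hc]
    have h1 : c * (sx y * g * τ) = c * g := by rw [hg.2]
    calc c * sx y * c⁻¹ * (c * g) * τ = c * (sx y * g * τ) := by group
      _ = c * g := h1

theorem sum_kap (x : Letter m) : ∑ τ, kap τ x = Fintype.card (Equiv.Perm (Fin m)) := by
  classical
  unfold kap
  simp only [Finset.card_filter]
  rw [Finset.sum_comm]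
  have : ∀ g : Equiv.Perm (Fin m), ∑ τ : Equiv.Perm (Fin m), (if sx x * g * τ = g then 1 else 0) = 1 := by
    intro g
    rw [Finset.sum_eq_single ((sx x * g)⁻¹ * g)]
    · rw [if_pos (by group)]
    · intro τ _ hτ
      rw [if_neg]
      intro h
      apply hτ
      calc τ = (sx x * g)⁻¹ * (sx x * g * τ) := by group
        _ = (sx x * g)⁻¹ * g := by rw [h]
    · intro h; exact absurd (Finset.mem_univ _) h
  rw [Finset.sum_congr rfl (fun g _ => this g)]
  simp

theorem mean_fx (p : Letter m → ℝ) (τ : Equiv.Perm (Fin m)) (x0 : Letter m) :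
    mean p (fx τ) = kap τ x0 * drift p / Fintype.card (Equiv.Perm (Fin m)) := by
  classical
  unfold mean
  congr 1
  rw [Finset.sum_comm]
  unfold drift
  rw [Finset.mul_sum]
  refine Finset.sum_congr rfl fun x _ => ?_
  rw [kap_eq τ x0 x]
  unfold kap fx
  rw [← Finset.mul_sum, ← Finset.sum_filter, Finset.sum_const, nsmul_eq_mul]
  ring

/-- the mean net crossing number -/
theorem netc_moment {p : Letter m → ℝ} (hp0 : ∀ x, 0 ≤ p x) (hp1 : ∑ x, p x = 1)
    (hirr : ∀ i, 0 < p (true, i) + p (false, i)) {δ : ℝ} (hδ : 0 < δ) :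
    ∃ K : ℝ, 0 ≤ K ∧ ∀ n : ℕ, Ex p n (fun w => ((netc w : ℤ) : ℝ)) ≤ (|drift p| + δ) * n + K := by
  obtain ⟨x0⟩ : Nonempty (Letter m) := by
    by_contra h
    rw [not_nonempty_iff] at h
    rw [Finset.univ_eq_empty, Finset.sum_empty] at hp1
    exact zero_ne_one hp1
  have hG : (0:ℝ) < Fintype.card (Equiv.Perm (Fin m)) := by
    exact_mod_cast Fintype.card_pos
  choose K hK0 hK using fun τ : Equiv.Perm (Fin m) =>
    first_moment hp0 hp1 (closure_top hp0 hirr) (fx τ) (abs_fx τ)
      (show 0 < δ / Fintype.card (Equiv.Perm (Fin m)) by positivity)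
  refine ⟨∑ τ, K τ, Finset.sum_nonneg fun τ _ => hK0 τ, fun n => ?_⟩
  have h1 : Ex p n (fun w => ((netc w : ℤ) : ℝ)) = ∑ τ, Ex p n (fun w => |AF sx (fx τ) w|) := by
    rw [← Ex_sum Finset.univ n (fun τ w => |AF sx (fx τ) w|) hp0]
    congr 1
    funext w
    exact netc_AF w
  rw [h1]
  calc _ ≤ ∑ τ : Equiv.Perm (Fin m), ((|mean p (fx τ)| + δ / Fintype.card (Equiv.Perm (Fin m))) * n + K τ) :=
        Finset.sum_le_sum fun τ _ => hK τ n
    _ = _ := by
        rw [Finset.sum_add_distrib, ← Finset.sum_mul, Finset.sum_add_distrib]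
        congr 2
        congr 1
        · have h2 : ∀ τ : Equiv.Perm (Fin m), |mean p (fx τ)| =
              (kap τ x0 : ℝ) * (|drift p| / Fintype.card (Equiv.Perm (Fin m))) := by
            intro τ
            rw [mean_fx p τ x0, abs_div, abs_mul, Nat.abs_cast, Nat.abs_cast]
            ring
          rw [Finset.sum_congr rfl (fun τ _ => h2 τ), ← Finset.sum_mul]
          have h3 : ∑ τ : Equiv.Perm (Fin m), (kap τ x0 : ℝ) =
              Fintype.card (Equiv.Perm (Fin m)) := by
            exact_mod_cast sum_kap x0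
          rw [h3]
          field_simp
        · rw [Finset.sum_const, Finset.card_univ, nsmul_eq_mul]
          field_simp

theorem exs_cons (x : Letter m) (w : List (Letter m)) : ((exs (x :: w) : ℤ) : ℝ) = sn x + exs w := by
  have h1 : exs (x :: w) = (if x.1 then (1:ℤ) else -1) + exs w := by simp [exs]
  rw [h1]
  unfold sn
  push_cast
  rfl

theorem exs_moment {p : Letter m → ℝ} (hp1 : ∑ x, p x = 1) (n : ℕ) :
    Ex p n (fun w => ((exs w : ℤ) : ℝ)) = drift p * n := by
  induction n with
  | zero => simp [Ex, exs]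
  | succ n ih =>
    simp only [Ex]
    have h1 : (fun w : List (Letter m) => ∑ x, p x * ((exs (x :: w) : ℤ) : ℝ)) =
        fun w => drift p + ((exs w : ℤ) : ℝ) := by
      funext w
      simp only [exs_cons]
      have : ∀ x : Letter m, p x * (sn x + (exs w : ℝ)) = p x * sn x + p x * (exs w : ℝ) := by
        intro x; ring
      rw [Finset.sum_congr rfl (fun x _ => this x), Finset.sum_add_distrib, ← Finset.sum_mul, hp1,
        one_mul]
      rfl
    rw [h1, Ex_add, Ex_const hp1, ih]
    push_cast
    ring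

theorem netc_le (w : List (Letter m)) : netc w ≤ w.length := by
  have h : ∀ v : List (Bool × ℕ), ∑ ρ, |cr m v ρ| ≤ v.length := by
    intro v
    induction v with
    | nil => simp [cr]
    | cons x v ih =>
      simp only [cr]
      calc ∑ ρ, |(if permL m v = ρ then sgn x else 0) + cr m v ((swp m x.2)⁻¹ * ρ)|
          ≤ ∑ ρ, (|(if permL m v = ρ then sgn x else 0)| + |cr m v ((swp m x.2)⁻¹ * ρ)|) :=
            Finset.sum_le_sum fun ρ _ => abs_add_le _ _
        _ = ∑ ρ, |(if permL m v = ρ then sgn x else 0)| + ∑ ρ, |cr m v ρ| := by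
            rw [Finset.sum_add_distrib]
            congr 1
            exact Equiv.sum_comp (Equiv.mulLeft (swp m x.2)⁻¹) (fun ρ => |cr m v ρ|)
        _ ≤ _ := by
            have h1 : ∑ ρ, |(if permL m v = ρ then sgn x else 0)| = 1 := by
              rw [Finset.sum_eq_single (permL m v)]
              · rw [if_pos rfl]
                rcases sgn_cases x with h | h <;> rw [h] <;> simp
              · intro ρ _ hρ
                rw [if_neg (Ne.symm hρ), abs_zero]
              · intro h; exact absurd (Finset.mem_univ _) h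
            rw [h1, List.length_cons]
            push_cast
            linarith
  rw [netc_eq]
  have := h (toN w)
  rwa [toN_length] at this

end Pool.Agent.D0H83.RG
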